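import Pool.Agent.H392.Homeo
import Pool.Agent.H392.Core3
import Pool.Graph.R_seed8.Results.MP_f251f6_al.PrimitiveInPrime

/-!
# Restriction of primitive ideals from `U(W)` to `U(W_{≥ -1})`

Let `W` be the Witt algebra over a field `F` of characteristic zero and `r(I) = I ∩ U(W_{≥ -1})`.

* (all `F`) `r` is a homeomorphism from the space of prime ideals of `U(W)` onto the space of prime
  ideals of `U(W_{≥ -1})` (hull-kernel topologies), and for every set `X` of prime or primitive ideals
  of `U(W)` it is a homeomorphism of `X` onto its image.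
* (`F` algebraically closed and uncountable, e.g. `ℂ`) a nonzero prime ideal `P` of `U(W)` is primitive
  if and only if `r(P)` is primitive, if and only if `P` is rational, if and only if `r(P)` is rational
  (i.e. the extended centroid is `F`).  So `r` is a homeomorphism from the space of nonzero primitive
  ideals of `U(W)` onto the space of nonzero primitive ideals of `U(W_{≥ -1})`, and question Q1 has a
  positive answer over `F` if and only if the zero ideal of `U(W_{≥ -1})` is primitive.

## Idea of the second part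

Let `Q` be a nonzero prime ideal of `U(W_{≥ -1})`, `x n = t^n ∂`.

1. (`Rep1`, `Dom`)  The quotient by `Q` embeds into a Noetherian domain `B` generated over `F` by
   commuting points `c`, each of them given by a Weyl pair `(D c, T c)` and a truncated Witt algebra
   `Z c l`, `1 ≤ l ≤ M c`, such that `x n ↦ ∑ (D T^n + ∑ (n choose l) T^(n-l) Z l)`; and `B` is minimal: a
   nonzero ideal of `B` meets the quotient.
2. (`Mart`)  Primitive ideals are rational (Schur, Martindale); if `P` is rational, so is `r(P)`: the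
   relations `b u b' - b' u b ∈ P` for `u ∈ U(W_{≥ -1})` imply those for `u ∈ U(W)`.  If `Q` is rational,
   fractions `z` of `B` which commute with `B` are scalars: otherwise there are elements
   `a_λ ∉ Q` with `a_λ = (z - λ) g_λ`, the uncountably many `g_λ ∈ B` are linearly dependent, and this
   contradicts rationality.
3. (`Semi`, `SimpN`)  So every nonzero ideal of the algebra `G` generated by the `Z c l` contains a product
   of the top elements `Z c (M c)`: it contains a semi-invariant `s`, a power of `s` has the weights of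
   such a product, and the quotient is central, hence scalar.  Therefore `G` has a faithful simple module
   `N` on which the top elements are injective.
4. (`Ind`, `Delta`, `Gr`, `Core2`)  The module `V = N[D_c : c]` with `T c = b_c + y_c`, `b_c` distinct nonzero
   scalars, `y_c` locally nilpotent, is a simple module over `U(W_{≥ -1})`; its annihilator is `Q`, by an
   extension lemma for isomorphisms of algebras to commuting Weyl pairs.  (If `Z c l = 0` for all `l`, one
   has to conjugate by `D c` first.)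
5. (`Core3`)  As `b_c ≠ 0` the module extends to `U(W)`, and its annihilator is a prime ideal which
   restricts to `Q`.
-/

set_option autoImplicit false

namespace Pool.Agent.Results.MP_fc828e_al.PrimitiveRestriction

open Pool.Agent.R693 Pool.Agent.R693.W Pool.Agent.H392

/-- A two-sided ideal `P` of an algebra `U` over `F` is rational if the extended centroid of `U / P` is
`F` (Martindale's form): if `b u b' - b' u b ∈ P` for all `u ∈ U`, where `b' ∉ P`, then
`b ≡ c b'` modulo `P` for some `c ∈ F`. -/
def IsRational (F : Type) [Field F] {U : Type} [Ring U] [Algebra F U] (P : TwoSidedIdeal U) : Prop :=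
  ∀ b b' : U, b' ∉ P → (∀ u, b * u * b' - b' * u * b ∈ P) → ∃ c : F, b - c • b' ∈ P

/-- The restriction map sends `X` to `Y`, is a bijection from `X` to `Y`, and a homeomorphism for the
Jacobson topologies. -/
def RestrictsTo (F : Type) [Field F] {L : Type} [LieRing L] [LieAlgebra F L] (L' : LieSubalgebra F L)
    (X : Set (TwoSidedIdeal (UniversalEnvelopingAlgebra F L)))
    (Y : Set (TwoSidedIdeal (UniversalEnvelopingAlgebra F L'))) : Prop :=
  ∃ f : X → Y, (∀ P, (f P).1 = restriction F L' P.1) ∧
    @IsHomeomorph _ _ (jacobson X) (jacobson Y) f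

theorem result (F : Type) [Field F] [CharZero F] (L : Type) [LieRing L] [LieAlgebra F L]
    (e : Module.Basis ℤ F L) (he : ∀ m n : ℤ, ⁅e m, e n⁆ = ((n - m : ℤ) : F) • e (m + n))
    (L' : LieSubalgebra F L)
    (hL' : L'.toSubmodule = Submodule.span F {x | ∃ n : ℤ, -1 ≤ n ∧ x = e n}) :
    -- all fields of characteristic zero
    (RestrictsTo F L' {P | IsPrime P} {Q | IsPrime Q} ∧
      ∀ X : Set (TwoSidedIdeal (UniversalEnvelopingAlgebra F L)),
        (∀ P ∈ X, IsPrime P ∨ IsPrimitive P) → RestrictsTo F L' X (restriction F L' '' X)) ∧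
    -- uncountable algebraically closed fields
    (IsAlgClosed F → Uncountable F →
      (∀ P : TwoSidedIdeal (UniversalEnvelopingAlgebra F L), IsPrime P → P ≠ ⊥ →
        (IsPrimitive P ↔ IsPrimitive (restriction F L' P)) ∧ (IsPrimitive P ↔ IsRational F P) ∧
          (IsPrimitive P ↔ IsRational F (restriction F L' P))) ∧
      RestrictsTo F L' {P | IsPrimitive P ∧ P ≠ ⊥} {Q | IsPrimitive Q ∧ Q ≠ ⊥} ∧
      (RestrictsTo F L' {P | IsPrimitive P} {Q | IsPrimitive Q} ↔
        IsPrimitive (⊥ : TwoSidedIdeal (UniversalEnvelopingAlgebra F L')))) := by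
  classical
  obtain ⟨eA, eP, hφ, hinj, hW, hg, hgp, hu, hup, hd1, hd2, hd3, hd4, hNV, hLI⟩ :=
    setup F L e he L' hL'
  obtain ⟨hb1, hb2, hb3⟩ := restrict_bij (incl F L') hφ hinj hW hg hgp hu hNV
  obtain ⟨τ, hτ⟩ := Tr.mem_prime_iff (incl F L') hφ hinj hW hg hgp hu hNV
  have hprim : ∀ {U : Type} [Ring U] {P : TwoSidedIdeal U}, IsPrimitive P → IsPrimeT P := by
    rintro U _ P ⟨M, _, _, h1, h2⟩
    exact C.prime_of_ann h2
  -- homeomorphisms
  have hhom : ∀ (X : Set (TwoSidedIdeal (UniversalEnvelopingAlgebra F L)))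
      (Y : Set (TwoSidedIdeal (UniversalEnvelopingAlgebra F L'))), (∀ P ∈ X, IsPrimeT P) →
      (∀ P ∈ X, restriction F L' P ∈ Y) → (∀ Q ∈ Y, ∃ P ∈ X, restriction F L' P = Q) →
      RestrictsTo F L' X Y := by
    intro X Y hX h1 h2
    refine ⟨fun P => ⟨restriction F L' P.1, h1 P.1 P.2⟩, fun P => rfl, ?_⟩
    apply homeo_of_coeff (incl F L') _ _ _ (fun P => rfl) ?_ (fun u i => (τ u).coeff i)
    · intro P hP u
      exact hτ P (hX P hP) u
    · constructor
      · intro P P' h
        exact Subtype.ext (hb2 P.1 P'.1 (hX _ P.2) (hX _ P'.2) (congrArg Subtype.val h))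
      · rintro ⟨Q, hQ⟩
        obtain ⟨P, hP, hPQ⟩ := h2 Q hQ
        exact ⟨⟨P, hP⟩, Subtype.ext hPQ⟩
  have hbot : restriction F L' ⊥ = ⊥ := by
    ext x
    change x ∈ TwoSidedIdeal.comap (incl F L') ⊥ ↔ _
    rw [TwoSidedIdeal.mem_comap, TwoSidedIdeal.mem_bot, TwoSidedIdeal.mem_bot]
    exact map_eq_zero_iff _ hinj
  refine ⟨⟨?_, ?_⟩, fun hac huc => ?_⟩
  · apply hhom
    · intro P hP
      exact (isPrime_iff _).mp hP
    · intro P hP
      exact (isPrime_iff _).mpr (hb1 P ((isPrime_iff _).mp hP))
    · intro Q hQ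
      obtain ⟨P, hP, hPQ⟩ := hb3 Q ((isPrime_iff _).mp hQ)
      exact ⟨P, (isPrime_iff _).mpr hP, hPQ⟩
  · intro X hX
    apply hhom
    · intro P hP
      rcases hX P hP with h | h
      · exact (isPrime_iff _).mp h
      · exact hprim h
    · exact fun P hP => ⟨P, hP, rfl⟩
    · rintro _ ⟨P, hP, rfl⟩
      exact ⟨P, hP, rfl⟩
  have hmain : ∀ P : TwoSidedIdeal (UniversalEnvelopingAlgebra F L), IsPrimeT P → P ≠ ⊥ →
      (IsPrimitive P ↔ IsPrimitive (restriction F L' P)) ∧ (IsPrimitive P ↔ IsRational F P) ∧
        (IsPrimitive P ↔ IsRational F (restriction F L' P)) := by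
    intro P hP h0
    obtain ⟨h1, h2, h3⟩ := primitive_iff (incl F L') hφ hinj hW hg hgp hu hup hNV hP h0
    exact ⟨h1, h2, h1.trans h3⟩
  -- the zero ideal of the enveloping algebra of the Witt algebra
  have hzero : IsPrimitive (⊥ : TwoSidedIdeal (UniversalEnvelopingAlgebra F L)) := by
    obtain ⟨I, hI, hle, -⟩ := Pool.Agent.Results.MP_f251f6_al.PrimitiveInPrime.result F L e he ⊥
      (bot_prime (A := UniversalEnvelopingAlgebra F L))
    have h1 : I = ⊥ := eq_bot_iff.mpr hle
    rw [← h1]
    exact hI
  refine ⟨fun P hP h0 => hmain P ((isPrime_iff _).mp hP) h0, ?_, ?_, ?_⟩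
  · apply hhom
    · exact fun P hP => hprim hP.1
    · rintro P ⟨hP, h0⟩
      refine ⟨((hmain P (hprim hP) h0).1).mp hP, fun h => h0 ?_⟩
      exact hb2 P ⊥ (hprim hP) bot_prime (h.trans hbot.symm)
    · rintro Q ⟨hQ, h0⟩
      obtain ⟨P, hP, hPQ⟩ := hb3 Q (hprim hQ)
      have hP0 : P ≠ ⊥ := by
        rintro rfl
        exact h0 (hPQ.symm.trans hbot)
      refine ⟨P, ⟨((hmain P hP hP0).1).mpr ?_, hP0⟩, hPQ⟩
      change IsPrimitive (TwoSidedIdeal.comap (incl F L') P)
      rw [hPQ]
      exact hQ
  · rintro ⟨f, hf, -⟩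
    have h1 := (f ⟨⊥, hzero⟩).2
    have h2 := hf ⟨⊥, hzero⟩
    rw [hbot] at h2
    have h3 : IsPrimitive (f ⟨⊥, hzero⟩).1 := h1
    rwa [h2] at h3
  · intro hz
    apply hhom
    · exact fun P hP => hprim hP
    · intro P hP
      by_cases h0 : P = ⊥
      · rw [h0, hbot]
        exact hz
      · exact ((hmain P (hprim hP) h0).1).mp hP
    · intro Q hQ
      by_cases h0 : Q = ⊥
      · exact ⟨⊥, hzero, by rw [hbot, h0]⟩
      · obtain ⟨P, hP, hPQ⟩ := hb3 Q (hprim hQ)
        have hP0 : P ≠ ⊥ := by
          rintro rfl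
          exact h0 (hPQ.symm.trans hbot)
        refine ⟨P, ((hmain P hP hP0).1).mpr ?_, hPQ⟩
        change IsPrimitive (TwoSidedIdeal.comap (incl F L') P)
        rw [hPQ]
        exact hQ

end Pool.Agent.Results.MP_fc828e_al.PrimitiveRestriction
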